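import Mathlib

namespace Pool.Agent.Lib_MP_0f9677_co

/-- `g n x = (x - 1) (n (n - 1) - x (x - 1))` -/
def g (n x : ℝ) : ℝ := (x - 1) * (n * (n - 1) - x * (x - 1))

/-- the normalised inequality, first case -/
theorem caseA (u v s : ℝ) (hu : 0 < u) (huv : u ≤ v) (hv : v ≤ 1) (hs0 : 0 ≤ s) (hs1 : s ≤ u ^ 2)
    (h : u ^ 2 ≤ u + v - u * v - 1 / 2) : s ^ 2 ≤ 9 / 25 * (u * v) := by
  have hu1 : u < 1 := by
    rcases lt_or_eq_of_le (huv.trans hv) with h1 | h1
    · exact h1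
    · subst h1
      exfalso
      nlinarith
  have hq : u ^ 3 * (1 - u) ≤ 9 / 25 * (u ^ 2 - u + 1 / 2) := by
    nlinarith [sq_nonneg (u ^ 2 - u / 2 - 1 / 8), sq_nonneg (u - 97 / 144)]
  have h2 : u ^ 3 * (1 - u) ≤ 9 / 25 * v * (1 - u) := by nlinarith
  have h3 : u ^ 3 ≤ 9 / 25 * v := le_of_mul_le_mul_right h2 (by linarith)
  calc s ^ 2 ≤ (u ^ 2) ^ 2 := pow_le_pow_left₀ hs0 hs1 2
    _ = u * u ^ 3 := by ring
    _ ≤ u * (9 / 25 * v) := mul_le_mul_of_nonneg_left h3 hu.le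
    _ = 9 / 25 * (u * v) := by ring

/-- a convex quadratic that is nonpositive at two points is nonpositive in between -/
theorem convex_quad (A B C w1 w0 w : ℝ) (hA : 0 ≤ A) (h1 : A * w1 ^ 2 + B * w1 + C ≤ 0)
    (h0 : A * w0 ^ 2 + B * w0 + C ≤ 0) (hw1 : w1 ≤ w) (hw0 : w ≤ w0) :
    A * w ^ 2 + B * w + C ≤ 0 := by
  rcases eq_or_lt_of_le (hw1.trans hw0) with h | h
  · have : w = w1 := by linarith
    rw [this]; exact h1
  · have key : (w0 - w1) * (A * w ^ 2 + B * w + C) =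
        (w0 - w) * (A * w1 ^ 2 + B * w1 + C) + (w - w1) * (A * w0 ^ 2 + B * w0 + C)
          - A * (w - w1) * (w0 - w) * (w0 - w1) := by ring
    have h2 : (w0 - w1) * (A * w ^ 2 + B * w + C) ≤ 0 := by
      rw [key]
      have e1 : (w0 - w) * (A * w1 ^ 2 + B * w1 + C) ≤ 0 :=
        mul_nonpos_of_nonneg_of_nonpos (by linarith) h1
      have e2 : (w - w1) * (A * w0 ^ 2 + B * w0 + C) ≤ 0 :=
        mul_nonpos_of_nonneg_of_nonpos (by linarith) h0
      have e3 : 0 ≤ A * (w - w1) * (w0 - w) * (w0 - w1) := by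
        have : 0 ≤ w - w1 := by linarith
        have : 0 ≤ w0 - w := by linarith
        have : 0 ≤ w0 - w1 := by linarith
        positivity
      linarith
    by_contra hcon
    push Not at hcon
    have : 0 < (w0 - w1) * (A * w ^ 2 + B * w + C) := mul_pos (by linarith) hcon
    linarith

theorem caseB (u v s : ℝ) (hu : 0 < u) (huv : u ≤ v) (hv : v ≤ 1) (hs0 : 0 ≤ s)
    (hs : s ≤ u + v - u * v - 1 / 2)
    (h : u + v - u * v - 1 / 2 ≤ u ^ 2) : s ^ 2 ≤ 9 / 25 * (u * v) := by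
  rcases eq_or_lt_of_le (huv.trans hv) with hu1 | hu1
  · subst hu1
    nlinarith
  · -- `w = (1 - u) v`
    have hq : u ^ 3 * (1 - u) ≤ 9 / 25 * (u ^ 2 - u + 1 / 2) := by
      nlinarith [sq_nonneg (u ^ 2 - u / 2 - 1 / 8), sq_nonneg (u - 97 / 144)]
    set a : ℝ := u - 1 / 2 with ha
    have hsw : s ≤ a + (1 - u) * v := by rw [ha]; linarith
    have goal1 : (1 - u) * (a + (1 - u) * v) ^ 2 - 9 / 25 * u * ((1 - u) * v) ≤ 0 := by
      have e : ∀ w : ℝ, (1 - u) * (a + w) ^ 2 - 9 / 25 * u * w =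
          (1 - u) * w ^ 2 + (2 * (1 - u) * a - 9 / 25 * u) * w + (1 - u) * a ^ 2 := by
        intro w; ring
      rw [e]
      by_cases hcase : 0 ≤ 2 * u - u ^ 2 - 1 / 2
      · refine convex_quad (1 - u) _ _ ((1 - u) * u) (u ^ 2 - u + 1 / 2) _ (by linarith) ?_ ?_ ?_ ?_
        · rw [← e]
          have h1 : 2 * u - u ^ 2 - 1 / 2 ≤ 3 / 5 * u := by nlinarith [sq_nonneg (u - 7 / 10)]
          have h2 : (2 * u - u ^ 2 - 1 / 2) ^ 2 ≤ (3 / 5 * u) ^ 2 := pow_le_pow_left₀ hcase h1 2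
          have h3 : a + (1 - u) * u = 2 * u - u ^ 2 - 1 / 2 := by rw [ha]; ring
          rw [h3]
          nlinarith
        · rw [← e]
          have h3 : a + (u ^ 2 - u + 1 / 2) = u ^ 2 := by rw [ha]; ring
          rw [h3]
          nlinarith
        · nlinarith
        · nlinarith
      · push Not at hcase
        refine convex_quad (1 - u) _ _ (1 / 2 - u) (u ^ 2 - u + 1 / 2) _ (by linarith) ?_ ?_ ?_ ?_
        · rw [← e]
          have h3 : a + (1 / 2 - u) = 0 := by rw [ha]; ring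
          rw [h3]
          have h4 : u ≤ 1 / 2 := by
            by_contra hc
            push Not at hc
            nlinarith
          nlinarith
        · rw [← e]
          have h3 : a + (u ^ 2 - u + 1 / 2) = u ^ 2 := by rw [ha]; ring
          rw [h3]
          nlinarith
        · rw [ha] at hsw
          linarith
        · nlinarith
    have goal2 : (1 - u) * s ^ 2 ≤ (1 - u) * (9 / 25 * (u * v)) := by
      have h5 : s ^ 2 ≤ (a + (1 - u) * v) ^ 2 := pow_le_pow_left₀ hs0 hsw 2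
      have h6 : (1 - u) * s ^ 2 ≤ (1 - u) * (a + (1 - u) * v) ^ 2 :=
        mul_le_mul_of_nonneg_left h5 (by linarith)
      nlinarith
    exact le_of_mul_le_mul_left goal2 (by linarith)

theorem normalised (u v s : ℝ) (hu : 0 < u) (hv0 : 0 < v) (hu1 : u ≤ 1) (hv : v ≤ 1) (hs0 : 0 ≤ s)
    (hs1 : s ≤ u ^ 2) (hs2 : s ≤ v ^ 2) (hs : s ≤ u + v - u * v - 1 / 2) :
    s ^ 2 ≤ 9 / 25 * (u * v) := by
  rcases le_total u v with huv | huv
  · rcases le_total (u ^ 2) (u + v - u * v - 1 / 2) with h | h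
    · exact caseA u v s hu huv hv hs0 hs1 h
    · exact caseB u v s hu huv hv hs0 hs h
  · rw [mul_comm u v]
    rcases le_total (v ^ 2) (v + u - v * u - 1 / 2) with h | h
    · exact caseA v u s hv0 huv hu1 hs0 hs2 h
    · exact caseB v u s hv0 huv hu1 hs0 (by linarith) h

end Pool.Agent.Lib_MP_0f9677_co
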