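import Pool.Agent.Lib_MP_0f9677_co.Defs

namespace Pool.Agent.Lib_MP_0f9677_co

open SimpleGraph

/-- the two-element subsets of `A` -/
def pairs {n : ℕ} (A : Finset (Fin n)) : Finset (Sym2 (Fin n)) :=
  A.offDiag.image Sym2.mk.uncurry

theorem mem_pairs {n : ℕ} (A : Finset (Fin n)) (u v : Fin n) :
    s(u, v) ∈ pairs A ↔ u ∈ A ∧ v ∈ A ∧ u ≠ v := by
  unfold pairs
  simp only [Finset.mem_image, Finset.mem_offDiag, Prod.exists, Function.uncurry_apply_pair,
    Sym2.eq_iff]
  constructor
  · rintro ⟨a, b, ⟨h1, h2, h3⟩, ⟨rfl, rfl⟩ | ⟨rfl, rfl⟩⟩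
    · exact ⟨h1, h2, h3⟩
    · exact ⟨h2, h1, h3.symm⟩
  · rintro ⟨h1, h2, h3⟩
    exact ⟨u, v, ⟨h1, h2, h3⟩, Or.inl ⟨rfl, rfl⟩⟩

theorem card_pairs {n : ℕ} (A : Finset (Fin n)) : (pairs A).card = A.card.choose 2 :=
  Sym2.card_image_offDiag A

theorem pairs_inter {n : ℕ} (A B : Finset (Fin n)) : pairs A ∩ pairs B = pairs (A ∩ B) := by
  ext e
  induction e with
  | _ u v =>
    simp only [Finset.mem_inter, mem_pairs]
    tauto

theorem edge_sub {n : ℕ} {G : SimpleGraph (Fin n)} (H : G.Subgraph) (A : Finset (Fin n))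
    (hA : (A : Set (Fin n)) = H.verts) : H.edgeSet ⊆ (pairs A : Set (Sym2 (Fin n))) := by
  intro e he
  induction e with
  | _ u v =>
    rw [Subgraph.mem_edgeSet] at he
    rw [Finset.mem_coe, mem_pairs]
    have h1 : u ∈ H.verts := H.edge_vert he
    have h2 : v ∈ H.verts := H.edge_vert he.symm
    rw [← hA] at h1 h2
    exact ⟨h1, h2, (H.adj_sub he).ne⟩

theorem key {n : ℕ} {G : SimpleGraph (Fin n)} (H : G.Subgraph) (K : Gᶜ.Subgraph) :
    ∃ c : ℕ, H.edgeSet.ncard ≤ H.verts.ncard.choose 2 ∧ K.edgeSet.ncard ≤ K.verts.ncard.choose 2 ∧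
      H.edgeSet.ncard + K.edgeSet.ncard + c.choose 2 ≤
        H.verts.ncard.choose 2 + K.verts.ncard.choose 2 ∧
      H.verts.ncard + K.verts.ncard ≤ n + c ∧ H.verts.ncard ≤ n ∧ K.verts.ncard ≤ n := by
  classical
  set A : Finset (Fin n) := H.verts.toFinset with hA
  set B : Finset (Fin n) := K.verts.toFinset with hB
  have hA' : (A : Set (Fin n)) = H.verts := by simp [hA]
  have hB' : (B : Set (Fin n)) = K.verts := by simp [hB]
  have cA : H.verts.ncard = A.card := by rw [← hA', Set.ncard_coe_finset]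
  have cB : K.verts.ncard = B.card := by rw [← hB', Set.ncard_coe_finset]
  set E : Finset (Sym2 (Fin n)) := H.edgeSet.toFinset with hE
  set F : Finset (Sym2 (Fin n)) := K.edgeSet.toFinset with hF
  have hE' : (E : Set (Sym2 (Fin n))) = H.edgeSet := by simp [hE]
  have hF' : (F : Set (Sym2 (Fin n))) = K.edgeSet := by simp [hF]
  have cE : H.edgeSet.ncard = E.card := by rw [← hE', Set.ncard_coe_finset]
  have cF : K.edgeSet.ncard = F.card := by rw [← hF', Set.ncard_coe_finset]
  have sE : E ⊆ pairs A := by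
    have := edge_sub H A hA'
    rw [← hE'] at this
    exact_mod_cast this
  have sF : F ⊆ pairs B := by
    have := edge_sub K B hB'
    rw [← hF'] at this
    exact_mod_cast this
  have hdisj : Disjoint E F := by
    rw [Finset.disjoint_left]
    intro e he hf
    have he' : e ∈ H.edgeSet := by rw [← hE']; exact he
    have hf' : e ∈ K.edgeSet := by rw [← hF']; exact hf
    induction e with
    | _ u v =>
      rw [Subgraph.mem_edgeSet] at he' hf'
      have h1 := H.adj_sub he'
      have h2 := K.adj_sub hf'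
      rw [SimpleGraph.compl_adj] at h2
      exact h2.2 h1
  refine ⟨(A ∩ B).card, ?_, ?_, ?_, ?_, ?_, ?_⟩
  · rw [cE, cA, ← card_pairs]
    exact Finset.card_le_card sE
  · rw [cF, cB, ← card_pairs]
    exact Finset.card_le_card sF
  · rw [cE, cF, cA, cB, ← card_pairs, ← card_pairs, ← card_pairs, ← pairs_inter]
    have h1 : E.card + F.card = (E ∪ F).card := (Finset.card_union_of_disjoint hdisj).symm
    have h2 : (E ∪ F).card ≤ (pairs A ∪ pairs B).card :=
      Finset.card_le_card (Finset.union_subset_union sE sF)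
    have h3 := Finset.card_union_add_card_inter (pairs A) (pairs B)
    omega
  · rw [cA, cB]
    have h3 := Finset.card_union_add_card_inter A B
    have h4 : (A ∪ B).card ≤ n := by
      have := Finset.card_le_univ (A ∪ B)
      simpa using this
    omega
  · rw [cA]
    have := Finset.card_le_univ A
    simpa using this
  · rw [cB]
    have := Finset.card_le_univ B
    simpa using this

theorem Mad_set_finite {V : Type} [Finite V] (G : SimpleGraph V) :
    {d : ℝ | ∃ H : G.Subgraph, H.verts.Nonempty ∧ avgDeg H = d}.Finite := by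
  apply Set.Finite.subset (Set.finite_range (fun H : G.Subgraph => avgDeg H))
  rintro d ⟨H, -, rfl⟩
  exact ⟨H, rfl⟩

theorem Mad_attained {V : Type} [Finite V] [Nonempty V] (G : SimpleGraph V) :
    ∃ H : G.Subgraph, H.verts.Nonempty ∧ avgDeg H = Mad G := by
  have hne : {d : ℝ | ∃ H : G.Subgraph, H.verts.Nonempty ∧ avgDeg H = d}.Nonempty := by
    obtain ⟨v⟩ := ‹Nonempty V›
    exact ⟨_, G.singletonSubgraph v, ⟨v, rfl⟩, rfl⟩
  exact hne.csSup_mem (Mad_set_finite G)

theorem le_Mad {V : Type} [Finite V] (G : SimpleGraph V) (H : G.Subgraph)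
    (hH : H.verts.Nonempty) : avgDeg H ≤ Mad G :=
  le_csSup (Mad_set_finite G).bddAbove ⟨H, hH, rfl⟩

/-- lower bound for the clique-type graph -/
theorem Mad_cliqueType {n x : ℕ} (hx : 1 ≤ x) (hxn : x ≤ n) :
    (x : ℝ) - 1 ≤ Mad (cliqueType n x) := by
  classical
  set A : Finset (Fin n) := Finset.univ.filter (fun i : Fin n => (i : ℕ) < x) with hA
  have cA : A.card = x := by
    rw [hA]
    have := Fin.card_filter_val_lt (n := n) (m := x)
    rw [this]
    omega
  let H : (cliqueType n x).Subgraph :=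
    { verts := (A : Set (Fin n))
      Adj := fun i j => i ≠ j ∧ (i : ℕ) < x ∧ (j : ℕ) < x
      adj_sub := fun h => h
      edge_vert := fun h => by simp [hA, h.2.1]
      symm := ⟨fun _ _ h => ⟨h.1.symm, h.2.2, h.2.1⟩⟩ }
  have hE : H.edgeSet = (pairs A : Set (Sym2 (Fin n))) := by
    ext e
    induction e with
    | _ u v =>
      rw [Subgraph.mem_edgeSet, Finset.mem_coe, mem_pairs]
      simp only [H, hA, Finset.mem_filter, Finset.mem_univ, true_and]
      tauto
  have h1 : avgDeg H = (x : ℝ) - 1 := by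
    unfold avgDeg
    rw [hE, Set.ncard_coe_finset, card_pairs, cA]
    have h2 : H.verts.ncard = x := by
      change ((A : Set (Fin n))).ncard = x
      rw [Set.ncard_coe_finset, cA]
    rw [h2, Nat.cast_choose_two]
    have hx0 : (x : ℝ) ≠ 0 := by positivity
    field_simp
  rw [← h1]
  apply le_Mad
  refine ⟨⟨0, by omega⟩, ?_⟩
  change (⟨0, by omega⟩ : Fin n) ∈ (A : Set (Fin n))
  simp [hA]
  omega

theorem Mad_cliqueType_compl {n x : ℕ} (hx : 1 ≤ x) (hxn : x ≤ n) :
    ((n : ℝ) * (n - 1) - x * (x - 1)) / n ≤ Mad (cliqueType n x)ᶜ := by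
  classical
  set A : Finset (Fin n) := Finset.univ.filter (fun i : Fin n => (i : ℕ) < x) with hA
  have cA : A.card = x := by
    rw [hA]
    have := Fin.card_filter_val_lt (n := n) (m := x)
    rw [this]
    omega
  let H : ((cliqueType n x)ᶜ).Subgraph := ⊤
  have hE : H.edgeSet = ((pairs Finset.univ \ pairs A : Finset (Sym2 (Fin n))) : Set _) := by
    ext e
    induction e with
    | _ u v =>
      rw [Subgraph.mem_edgeSet, Finset.mem_coe, Finset.mem_sdiff, mem_pairs, mem_pairs]
      change (cliqueType n x)ᶜ.Adj u v ↔ _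
      rw [SimpleGraph.compl_adj]
      simp only [hA, Finset.mem_filter, Finset.mem_univ, true_and, cliqueType]
      tauto
  have hsub : pairs A ⊆ pairs (Finset.univ : Finset (Fin n)) := by
    intro e
    induction e with
    | _ u v =>
      rw [mem_pairs, mem_pairs]
      rintro ⟨-, -, h⟩
      exact ⟨Finset.mem_univ _, Finset.mem_univ _, h⟩
  have hchoose : x.choose 2 ≤ n.choose 2 := Nat.choose_le_choose 2 hxn
  have h1 : avgDeg H = ((n : ℝ) * (n - 1) - x * (x - 1)) / n := by
    unfold avgDeg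
    rw [hE, Set.ncard_coe_finset, Finset.card_sdiff_of_subset hsub, card_pairs, card_pairs, cA]
    have h2 : H.verts.ncard = n := by
      simp [H]
    rw [h2]
    simp only [Finset.card_univ, Fintype.card_fin]
    rw [Nat.cast_sub hchoose, Nat.cast_choose_two, Nat.cast_choose_two]
    ring
  rw [← h1]
  apply le_Mad
  exact ⟨⟨0, by omega⟩, by simp [H]⟩

end Pool.Agent.Lib_MP_0f9677_co
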