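import Mathlib

/-!
# Maximum average degree: definitions for MP_0f9677_co
-/

namespace Pool.Agent.Lib_MP_0f9677_co

/-- The average degree `2 |E(H)| / |V(H)|` of a subgraph `H`. -/
noncomputable def avgDeg {V : Type} {G : SimpleGraph V} (H : G.Subgraph) : ℝ :=
  2 * (H.edgeSet.ncard : ℝ) / (H.verts.ncard : ℝ)

/-- The maximum average degree of `G`: the supremum (a maximum when `V` is finite) of the average
degrees of the subgraphs of `G` with at least one vertex. -/
noncomputable def Mad {V : Type} (G : SimpleGraph V) : ℝ :=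
  sSup {d : ℝ | ∃ H : G.Subgraph, H.verts.Nonempty ∧ avgDeg H = d}

/-- The set of all values `Mad(G) * Mad(complement of G)`, `G` a graph on `n` vertices. -/
def products (n : ℕ) : Set ℝ := {m : ℝ | ∃ G : SimpleGraph (Fin n), Mad G * Mad Gᶜ = m}

/-- `f n` is the supremum of the set `products n`. -/
noncomputable def f (n : ℕ) : ℝ := sSup (products n)

/-- The clique-type graph `G_{n,x}`: the vertices `0, ..., x-1` form a clique and the other
vertices are isolated. -/
def cliqueType (n x : ℕ) : SimpleGraph (Fin n) where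
  Adj i j := i ≠ j ∧ (i : ℕ) < x ∧ (j : ℕ) < x
  symm := ⟨fun _ _ h => ⟨h.1.symm, h.2.2, h.2.1⟩⟩
  loopless := ⟨fun _ h => h.1 rfl⟩

end Pool.Agent.Lib_MP_0f9677_co
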