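import Pool.Agent.Lib_MP_0f9677_co.Main
import Pool.Agent.Lib_MP_0f9677_co.Comb

namespace Pool.Agent.Lib_MP_0f9677_co

open SimpleGraph

/-- the optimal clique size -/
noncomputable def xopt (n : ℕ) : ℕ := ⌈(1 + √(1 + 12 * (n : ℝ) * (n - 1))) / 6⌉₊

theorem xopt_le_iff (n x : ℕ) (hn : 1 ≤ n) (hx : 1 ≤ x) :
    xopt n ≤ x ↔ (n : ℝ) * (n - 1) ≤ x * (3 * x - 1) := by
  have hn' : (1 : ℝ) ≤ n := by exact_mod_cast hn
  have hx' : (1 : ℝ) ≤ x := by exact_mod_cast hx
  unfold xopt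
  rw [Nat.ceil_le, div_le_iff₀ (by norm_num)]
  have h1 : 1 + √(1 + 12 * (n : ℝ) * (n - 1)) ≤ x * 6 ↔ √(1 + 12 * (n : ℝ) * (n - 1)) ≤ 6 * x - 1 := by
    constructor <;> intro h <;> linarith
  rw [h1, Real.sqrt_le_left (by linarith)]
  constructor <;> intro h <;> nlinarith

theorem one_le_xopt (n : ℕ) : 1 ≤ xopt n := by
  unfold xopt
  rw [Nat.one_le_ceil_iff]
  positivity

theorem xopt_le (n : ℕ) (hn : 1 ≤ n) : xopt n ≤ n := by
  rw [xopt_le_iff n n hn hn]
  have hn' : (1 : ℝ) ≤ n := by exact_mod_cast hn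
  nlinarith

theorem g_le_xopt (n : ℕ) (hn : 1 ≤ n) (x : ℕ) (hx : 1 ≤ x) : g n x ≤ g n (xopt n) := by
  have step : ∀ y : ℕ, g n ((y + 1 : ℕ) : ℝ) - g n y = n * (n - 1) - y * (3 * y - 1) := by
    intro y
    unfold g
    push_cast
    ring
  have up : ∀ d : ℕ, g n ((xopt n + d : ℕ) : ℝ) ≤ g n (xopt n) := by
    intro d
    induction d with
    | zero => simp
    | succ d ih =>
      refine le_trans ?_ ih
      have h1 := step (xopt n + d)
      have h2 := (xopt_le_iff n (xopt n + d) hn (by have := one_le_xopt n; omega)).mp (by omega)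
      rw [show xopt n + (d + 1) = xopt n + d + 1 by ring]
      linarith
  have down : ∀ d : ℕ, 1 ≤ xopt n - d → g n ((xopt n - d : ℕ) : ℝ) ≤ g n (xopt n) := by
    intro d
    induction d with
    | zero => intro _; simp
    | succ d ih =>
      intro hd
      refine le_trans ?_ (ih (by omega))
      have h1 := step (xopt n - (d + 1))
      have h2 : ¬ xopt n ≤ xopt n - (d + 1) := by omega
      rw [xopt_le_iff n _ hn hd] at h2
      push Not at h2
      rw [show xopt n - (d + 1) + 1 = xopt n - d by omega] at h1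
      linarith
  rcases le_total (xopt n) x with h | h
  · obtain ⟨d, rfl⟩ := Nat.exists_eq_add_of_le h
    exact up d
  · have := down (xopt n - x) (by omega)
    rwa [show xopt n - (xopt n - x) = x by omega] at this

/-- upper bound for every graph -/
theorem upper (n : ℕ) (hn : 1 ≤ n) (G : SimpleGraph (Fin n)) :
    Mad G * Mad Gᶜ ≤ g n (xopt n) / n := by
  haveI : Nonempty (Fin n) := ⟨⟨0, by omega⟩⟩
  obtain ⟨H, hH, eH⟩ := Mad_attained G
  obtain ⟨K, hK, eK⟩ := Mad_attained Gᶜ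
  obtain ⟨c, h1, h2, h3, h4, h5, h6⟩ := key H K
  have ha : 1 ≤ H.verts.ncard := (Set.ncard_pos (Set.toFinite _)).mpr hH
  have hb : 1 ≤ K.verts.ncard := (Set.ncard_pos (Set.toFinite _)).mpr hK
  obtain ⟨x, hx1, hxn, hx⟩ := main_ineq n _ _ c _ _ hn ha hb h5 h6 h1 h2 h3 h4
  have hle := g_le_xopt n hn x hx1
  rw [← eH, ← eK]
  unfold avgDeg
  have hn0 : (0 : ℝ) < n := by exact_mod_cast hn
  have ha0 : (0 : ℝ) < H.verts.ncard := by exact_mod_cast ha
  have hb0 : (0 : ℝ) < K.verts.ncard := by exact_mod_cast hb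
  rw [div_mul_div_comm, div_le_div_iff₀ (by positivity) hn0]
  have h7 : (H.verts.ncard : ℝ) * K.verts.ncard * g n x ≤
      (H.verts.ncard : ℝ) * K.verts.ncard * g n (xopt n) :=
    mul_le_mul_of_nonneg_left hle (by positivity)
  calc 2 * (H.edgeSet.ncard : ℝ) * (2 * K.edgeSet.ncard) * n
      = 4 * (H.edgeSet.ncard : ℝ) * K.edgeSet.ncard * n := by ring
    _ ≤ H.verts.ncard * K.verts.ncard * g n x := hx
    _ ≤ H.verts.ncard * K.verts.ncard * g n (xopt n) := h7
    _ = _ := by ring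

theorem attained (n : ℕ) (hn : 1 ≤ n) :
    Mad (cliqueType n (xopt n)) * Mad (cliqueType n (xopt n))ᶜ = g n (xopt n) / n := by
  apply le_antisymm (upper n hn _)
  have h1 := Mad_cliqueType (one_le_xopt n) (xopt_le n hn)
  have h2 := Mad_cliqueType_compl (one_le_xopt n) (xopt_le n hn)
  have hx1 : (1 : ℝ) ≤ xopt n := by exact_mod_cast one_le_xopt n
  have hxn : (xopt n : ℝ) ≤ n := by exact_mod_cast xopt_le n hn
  have hn0 : (0 : ℝ) < n := by exact_mod_cast hn
  have h3 : 0 ≤ ((n : ℝ) * (n - 1) - xopt n * (xopt n - 1)) / n := by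
    apply div_nonneg _ hn0.le
    nlinarith
  calc g n (xopt n) / n
      = ((xopt n : ℝ) - 1) * (((n : ℝ) * (n - 1) - xopt n * (xopt n - 1)) / n) := by
        unfold g; ring
    _ ≤ _ := mul_le_mul h1 h2 h3 (by linarith)

theorem f_eq (n : ℕ) (hn : 1 ≤ n) :
    IsGreatest (products n) (f n) ∧ f n = g n (xopt n) / n := by
  have h : IsGreatest (products n) (g n (xopt n) / n) :=
    ⟨⟨_, attained n hn⟩, by rintro m ⟨G, rfl⟩; exact upper n hn G⟩
  have h2 : f n = g n (xopt n) / n := h.csSup_eq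
  exact ⟨h2 ▸ h, h2⟩

end Pool.Agent.Lib_MP_0f9677_co
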