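import Pool.Agent.Lib_MP_0f9677_co.Arith

namespace Pool.Agent.Lib_MP_0f9677_co

theorem g_large (n : ℕ) (hn : 36 ≤ n) :
    ∃ x : ℕ, 1 ≤ x ∧ x ≤ n ∧ 9 / 25 * (n : ℝ) ^ 3 ≤ g n x := by
  obtain ⟨k, r, hr, rfl⟩ : ∃ k r : ℕ, r < 7 ∧ n = 7 * k + r :=
    ⟨n / 7, n % 7, Nat.mod_lt _ (by norm_num), by omega⟩
  unfold g
  interval_cases r
  · obtain ⟨m, rfl⟩ : ∃ m, k = 6 + m := ⟨k - 6, by omega⟩
    refine ⟨4 * (6 + m) + 1, by omega, by omega, ?_⟩
    push_cast
    have hm : (0 : ℝ) ≤ m := Nat.cast_nonneg m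
    nlinarith [pow_nonneg hm 2, pow_nonneg hm 3]
  · obtain ⟨m, rfl⟩ : ∃ m, k = 5 + m := ⟨k - 5, by omega⟩
    refine ⟨4 * (5 + m) + 1, by omega, by omega, ?_⟩
    push_cast
    have hm : (0 : ℝ) ≤ m := Nat.cast_nonneg m
    nlinarith [pow_nonneg hm 2, pow_nonneg hm 3]
  · obtain ⟨m, rfl⟩ : ∃ m, k = 5 + m := ⟨k - 5, by omega⟩
    refine ⟨4 * (5 + m) + 2, by omega, by omega, ?_⟩
    push_cast
    have hm : (0 : ℝ) ≤ m := Nat.cast_nonneg m
    nlinarith [pow_nonneg hm 2, pow_nonneg hm 3]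
  · obtain ⟨m, rfl⟩ : ∃ m, k = 5 + m := ⟨k - 5, by omega⟩
    refine ⟨4 * (5 + m) + 2, by omega, by omega, ?_⟩
    push_cast
    have hm : (0 : ℝ) ≤ m := Nat.cast_nonneg m
    nlinarith [pow_nonneg hm 2, pow_nonneg hm 3]
  · obtain ⟨m, rfl⟩ : ∃ m, k = 5 + m := ⟨k - 5, by omega⟩
    refine ⟨4 * (5 + m) + 3, by omega, by omega, ?_⟩
    push_cast
    have hm : (0 : ℝ) ≤ m := Nat.cast_nonneg m
    nlinarith [pow_nonneg hm 2, pow_nonneg hm 3]
  · obtain ⟨m, rfl⟩ : ∃ m, k = 5 + m := ⟨k - 5, by omega⟩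
    refine ⟨4 * (5 + m) + 3, by omega, by omega, ?_⟩
    push_cast
    have hm : (0 : ℝ) ≤ m := Nat.cast_nonneg m
    nlinarith [pow_nonneg hm 2, pow_nonneg hm 3]
  · obtain ⟨m, rfl⟩ : ∃ m, k = 5 + m := ⟨k - 5, by omega⟩
    refine ⟨4 * (5 + m) + 4, by omega, by omega, ?_⟩
    push_cast
    have hm : (0 : ℝ) ≤ m := Nat.cast_nonneg m
    nlinarith [pow_nonneg hm 2, pow_nonneg hm 3]

/-- an optimal `x` for each `n < 36` -/
def xs (n : ℕ) : ℕ := ((List.range n).filter (fun x => x * (3 * x - 1) < n * (n - 1))).length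

/-- the finite check, as a Boolean -/
def check (n : ℕ) : Bool :=
  (List.range (n + 1)).all fun i => (List.range (n + 1)).all fun j =>
    -- a = n - i, b = n - j
    (i + j < n) → 
    (n * (n - 1) - 2 * (i * j) < 2 * ((n - i) * (n - i - 1))) →
    (n * (n - 1) - 2 * (i * j) < 2 * ((n - j) * (n - j - 1))) →
    ((n * (n - 1) - 2 * (i * j)) ^ 2 * n ≤
      4 * ((n - i) * (n - j)) * ((xs n - 1) * (n * (n - 1) - xs n * (xs n - 1))))

theorem check_all : ∀ n < 36, 3 ≤ n → check n = true ∧ 1 ≤ xs n ∧ xs n ≤ n := by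
  decide +kernel

theorem check_spec {n : ℕ} (h : check n = true) (i j : ℕ) (hij : i + j < n)
    (h1 : n * (n - 1) - 2 * (i * j) < 2 * ((n - i) * (n - i - 1)))
    (h2 : n * (n - 1) - 2 * (i * j) < 2 * ((n - j) * (n - j - 1))) :
    (n * (n - 1) - 2 * (i * j)) ^ 2 * n ≤
      4 * ((n - i) * (n - j)) * ((xs n - 1) * (n * (n - 1) - xs n * (xs n - 1))) := by
  unfold check at h
  rw [List.all_eq_true] at h
  have h3 := h i (List.mem_range.mpr (by omega))
  rw [List.all_eq_true] at h3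
  have h4 := h3 j (List.mem_range.mpr (by omega))
  simp only [decide_eq_true_eq] at h4
  exact h4 hij h1 h2

theorem small_case (n : ℕ) (hn3 : 3 ≤ n) (hn : n < 36) (i j : ℕ) (hij : i + j < n)
    (S : ℝ) (hS : 2 * S = n * (n - 1) - 2 * (i * j)) (hS0 : 0 ≤ S)
    (h1 : S < ((n : ℝ) - i) * (n - i - 1))
    (h2 : S < ((n : ℝ) - j) * (n - j - 1)) :
    ∃ x : ℕ, 1 ≤ x ∧ x ≤ n ∧ S ^ 2 * n ≤ ((n : ℝ) - i) * (n - j) * g n x := by
  obtain ⟨hc, hx1, hxn⟩ := check_all n hn hn3
  refine ⟨xs n, hx1, hxn, ?_⟩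
  set T : ℕ := n * (n - 1) - 2 * (i * j) with hT
  have hcast1 : ((n - 1 : ℕ) : ℝ) = (n : ℝ) - 1 := by
    rw [Nat.cast_sub (by omega)]; simp
  have hle : 2 * (i * j) ≤ n * (n - 1) := by
    have h3 : (2 * ((i : ℝ) * j)) ≤ n * (n - 1) := by linarith
    rw [← hcast1] at h3
    exact_mod_cast h3
  have hTS : (T : ℝ) = 2 * S := by
    rw [hT, Nat.cast_sub hle]
    push_cast
    rw [hcast1, hS]
  have ci : ((n - i : ℕ) : ℝ) = (n : ℝ) - i := Nat.cast_sub (by omega)
  have cj : ((n - j : ℕ) : ℝ) = (n : ℝ) - j := Nat.cast_sub (by omega)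
  have ci1 : ((n - i - 1 : ℕ) : ℝ) = (n : ℝ) - i - 1 := by
    rw [Nat.cast_sub (by omega), ci]; simp
  have cj1 : ((n - j - 1 : ℕ) : ℝ) = (n : ℝ) - j - 1 := by
    rw [Nat.cast_sub (by omega), cj]; simp
  have cx1 : ((xs n - 1 : ℕ) : ℝ) = (xs n : ℝ) - 1 := by
    rw [Nat.cast_sub hx1]; simp
  have h1' : T < 2 * ((n - i) * (n - i - 1)) := by
    have : (T : ℝ) < 2 * (((n - i : ℕ) : ℝ) * ((n - i - 1 : ℕ) : ℝ)) := by
      rw [hTS, ci, ci1]; linarith
    exact_mod_cast this
  have h2' : T < 2 * ((n - j) * (n - j - 1)) := by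
    have : (T : ℝ) < 2 * (((n - j : ℕ) : ℝ) * ((n - j - 1 : ℕ) : ℝ)) := by
      rw [hTS, cj, cj1]; linarith
    exact_mod_cast this
  have h3 := check_spec hc i j hij h1' h2'
  rw [← hT] at h3
  have h4 : (T : ℝ) ^ 2 * n ≤ 4 * (((n - i : ℕ) : ℝ) * ((n - j : ℕ) : ℝ)) *
      (((xs n - 1 : ℕ) : ℝ) * ((n * (n - 1) - xs n * (xs n - 1) : ℕ) : ℝ)) := by
    exact_mod_cast h3
  have hsub : xs n * (xs n - 1) ≤ n * (n - 1) := Nat.mul_le_mul hxn (by omega)
  rw [Nat.cast_sub hsub, Nat.cast_mul, Nat.cast_mul, cx1, hcast1, ci, cj, hTS] at h4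
  unfold g
  linarith

/-- The main inequality. -/
theorem main_ineq (n a b c X Y : ℕ) (hn : 1 ≤ n) (ha1 : 1 ≤ a) (hb1 : 1 ≤ b) (ha : a ≤ n)
    (hb : b ≤ n) (hX : X ≤ a.choose 2) (hY : Y ≤ b.choose 2)
    (hXY : X + Y + c.choose 2 ≤ a.choose 2 + b.choose 2) (hab : a + b ≤ n + c) :
    ∃ x : ℕ, 1 ≤ x ∧ x ≤ n ∧ 4 * (X : ℝ) * Y * n ≤ a * b * g n x := by
  have hX' : (X : ℝ) ≤ a * (a - 1) / 2 := by
    rw [← Nat.cast_choose_two]; exact_mod_cast hX
  have hY' : (Y : ℝ) ≤ b * (b - 1) / 2 := by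
    rw [← Nat.cast_choose_two]; exact_mod_cast hY
  have hX0 : (0 : ℝ) ≤ X := Nat.cast_nonneg X
  have hY0 : (0 : ℝ) ≤ Y := Nat.cast_nonneg Y
  have ha1' : (1 : ℝ) ≤ a := by exact_mod_cast ha1
  have hb1' : (1 : ℝ) ≤ b := by exact_mod_cast hb1
  have ha' : (a : ℝ) ≤ n := by exact_mod_cast ha
  have hb' : (b : ℝ) ≤ n := by exact_mod_cast hb
  have hn' : (1 : ℝ) ≤ n := by exact_mod_cast hn
  rcases Nat.lt_or_ge n (a + b) with hlt | hge
  swap
  · -- `a + b ≤ n`
    refine ⟨a, ha1, ha, ?_⟩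
    have hge' : (a : ℝ) + b ≤ n := by exact_mod_cast hge
    have h1 : 4 * (X : ℝ) * Y ≤ (a * (a - 1)) * (b * (b - 1)) := by nlinarith
    have h2 : 4 * (X : ℝ) * Y * n ≤ (a * (a - 1)) * (b * (b - 1)) * n :=
      mul_le_mul_of_nonneg_right h1 (by linarith)
    have h3 : ((b : ℝ) - 1) * n ≤ n * (n - 1) - a * (a - 1) := by nlinarith
    have h4 : 0 ≤ (a : ℝ) * b * (a - 1) := by
      have : 0 ≤ (a : ℝ) - 1 := by linarith
      positivity
    have h5 : (a : ℝ) * b * (a - 1) * ((b - 1) * n) ≤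
        (a : ℝ) * b * (a - 1) * (n * (n - 1) - a * (a - 1)) := mul_le_mul_of_nonneg_left h3 h4
    unfold g
    linarith
  · -- `n < a + b`
    set c0 : ℕ := a + b - n with hc0
    have hc0c : c0 ≤ c := by omega
    have hXY' : X + Y + c0.choose 2 ≤ a.choose 2 + b.choose 2 :=
      le_trans (by have := Nat.choose_le_choose 2 hc0c; omega) hXY
    have hc0' : (c0 : ℝ) = a + b - n := by
      rw [hc0, Nat.cast_sub (by omega)]; push_cast; ring
    have hR : (X : ℝ) + Y + (a + b - n) * (a + b - n - 1) / 2 ≤ a * (a - 1) / 2 + b * (b - 1) / 2 := by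
      have : ((X + Y + c0.choose 2 : ℕ) : ℝ) ≤ ((a.choose 2 + b.choose 2 : ℕ) : ℝ) := by
        exact_mod_cast hXY'
      push_cast [Nat.cast_choose_two] at this
      rw [hc0'] at this
      exact this
    set S : ℝ := a * (a - 1) / 2 + b * (b - 1) / 2 - (a + b - n) * (a + b - n - 1) / 2 with hS
    have hXYS : (X : ℝ) + Y ≤ S := by rw [hS]; linarith
    have hS2 : 2 * S = n * (n - 1) - 2 * ((n - a) * (n - b)) := by rw [hS]; ring
    by_cases h1 : (a : ℝ) * (a - 1) ≤ S
    · -- the optimum is at `X = C(a,2)`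
      refine ⟨a, ha1, ha, ?_⟩
      have h2 : (X : ℝ) * Y ≤ a * (a - 1) / 2 * (S - a * (a - 1) / 2) := by nlinarith
      have h3 : (n : ℝ) * (2 * S - a * (a - 1)) ≤ b * (n * (n - 1) - a * (a - 1)) := by
        have e : (b : ℝ) * (n * (n - 1) - a * (a - 1)) - n * (2 * S - a * (a - 1)) =
            (n - b) * ((n - a) * (n - a + 1)) := by
          rw [hS2]; ring
        have : 0 ≤ ((n : ℝ) - b) * ((n - a) * (n - a + 1)) := by
          have h6 : 0 ≤ (n : ℝ) - b := by linarith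
          have h7 : 0 ≤ (n : ℝ) - a := by linarith
          positivity
        linarith
      have h4 : 0 ≤ (a : ℝ) * (a - 1) := by
        have : 0 ≤ (a : ℝ) - 1 := by linarith
        positivity
      unfold g
      nlinarith
    · push Not at h1
      by_cases h2 : (b : ℝ) * (b - 1) ≤ S
      · refine ⟨b, hb1, hb, ?_⟩
        have h2 : (X : ℝ) * Y ≤ b * (b - 1) / 2 * (S - b * (b - 1) / 2) := by nlinarith
        have h3 : (n : ℝ) * (2 * S - b * (b - 1)) ≤ a * (n * (n - 1) - b * (b - 1)) := by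
          have e : (a : ℝ) * (n * (n - 1) - b * (b - 1)) - n * (2 * S - b * (b - 1)) =
              (n - a) * ((n - b) * (n - b + 1)) := by
            rw [hS2]; ring
          have : 0 ≤ ((n : ℝ) - a) * ((n - b) * (n - b + 1)) := by
            have h6 : 0 ≤ (n : ℝ) - a := by linarith
            have h7 : 0 ≤ (n : ℝ) - b := by linarith
            positivity
          linarith
        have h4 : 0 ≤ (b : ℝ) * (b - 1) := by
          have : 0 ≤ (b : ℝ) - 1 := by linarith
          positivity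
        unfold g
        nlinarith
      · push Not at h2
        have hS0 : 0 ≤ S := by linarith
        have h4XY : 4 * (X : ℝ) * Y ≤ S ^ 2 := by nlinarith [sq_nonneg ((X : ℝ) - Y)]
        have h4 : 4 * (X : ℝ) * Y * n ≤ S ^ 2 * n :=
          mul_le_mul_of_nonneg_right h4XY (by linarith)
        rcases Nat.lt_or_ge n 36 with hsmall | hlarge
        · rcases Nat.lt_or_ge n 3 with hn3 | hn3
          · -- `n = 1` or `n = 2`: the product is zero
            have hzero : X * Y = 0 := by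
              interval_cases n
              · interval_cases a
                have hX1 : X = 0 := by simpa using hX
                rw [hX1, zero_mul]
              · interval_cases a <;> interval_cases b <;> simp_all <;> omega
            refine ⟨1, le_rfl, hn, ?_⟩
            have hz : (X : ℝ) * Y = 0 := by exact_mod_cast hzero
            unfold g
            have : 4 * (X : ℝ) * Y * n = 4 * (X * Y) * n := by ring
            rw [this, hz]
            simp
          · have ci : ((n - a : ℕ) : ℝ) = (n : ℝ) - a := Nat.cast_sub ha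
            have cj : ((n - b : ℕ) : ℝ) = (n : ℝ) - b := Nat.cast_sub hb
            obtain ⟨x, hx1, hxn, hx⟩ := small_case n hn3 hsmall (n - a) (n - b) (by omega) S
              (by rw [ci, cj]; exact hS2) hS0
              (by rw [ci]; have : ((n : ℝ) - (n - a)) * (n - (n - a) - 1) = a * (a - 1) := by ring
                  rw [this]; exact h1)
              (by rw [cj]; have : ((n : ℝ) - (n - b)) * (n - (n - b) - 1) = b * (b - 1) := by ring
                  rw [this]; exact h2)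
            refine ⟨x, hx1, hxn, h4.trans ?_⟩
            rw [ci, cj] at hx
            have e : ((n : ℝ) - (n - a)) * (n - (n - b)) = a * b := by ring
            rw [e] at hx
            exact hx
        · obtain ⟨x, hx1, hxn, hx⟩ := g_large n hlarge
          refine ⟨x, hx1, hxn, h4.trans ?_⟩
          have hn0 : (0 : ℝ) < n := by linarith
          have hnorm := normalised ((a : ℝ) / n) ((b : ℝ) / n) (S / (n : ℝ) ^ 2)
            (by positivity) (by positivity) (by rw [div_le_one hn0]; exact ha')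
            (by rw [div_le_one hn0]; exact hb') (by positivity)
            (by rw [div_pow]; gcongr; nlinarith)
            (by rw [div_pow]; gcongr; nlinarith)
            (by
              rw [div_le_iff₀ (by positivity)]
              have e : ((a : ℝ) / n + b / n - a / n * (b / n) - 1 / 2) * (n : ℝ) ^ 2 =
                  a * n + b * n - a * b - n ^ 2 / 2 := by
                field_simp
              rw [e]
              nlinarith)
          have e1 : (S / (n : ℝ) ^ 2) ^ 2 = S ^ 2 / (n : ℝ) ^ 4 := by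
            rw [div_pow]; ring
          have e2 : 9 / 25 * ((a : ℝ) / n * (b / n)) = (9 / 25 * (a * b) * (n : ℝ) ^ 2) / (n : ℝ) ^ 4 := by
            field_simp
          rw [e1, e2, div_le_div_iff_of_pos_right (by positivity)] at hnorm
          have h5 : S ^ 2 * n ≤ 9 / 25 * (a * b) * (n : ℝ) ^ 2 * n :=
            mul_le_mul_of_nonneg_right hnorm hn0.le
          have h6 : (a : ℝ) * b * (9 / 25 * (n : ℝ) ^ 3) ≤ a * b * g n x :=
            mul_le_mul_of_nonneg_left hx (by positivity)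
          calc S ^ 2 * n ≤ 9 / 25 * (a * b) * (n : ℝ) ^ 2 * n := h5
            _ = a * b * (9 / 25 * (n : ℝ) ^ 3) := by ring
            _ ≤ _ := h6

end Pool.Agent.Lib_MP_0f9677_co
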